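import Pool.Agent.H47.VT.Targets1
import Pool.Agent.H30.BV.Targets

/-!
# Theorem (V), section 6: the arithmetic part of the left side (MP_9f0eeb_nt), exact targets
-/

set_option autoImplicit false

open Complex MeasureTheory Set

namespace Pool.Agent.H47.VT

open Pool.Agent.H23.GLH (PrimChar)
open Pool.Agent.H28.MZ (co ei)
open Pool.Agent.H74.DT (pt Cut)
open Pool.Agent.H88.DT (Dp)
open Pool.Agent.H47.DT (Kf)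
open Pool.Agent.H27.LS (hat)
open Pool.Agent.H30.BV (cv DS TX NX wx)
open ComplexConjugate

/-! ### Definitions -/

/-- the number of factorizations into `k` factors -/
noncomputable def tk (k n : ℕ) : ℝ := (((ArithmeticFunction.zeta : ArithmeticFunction ℕ) ^ k) n : ℝ)

open scoped Classical in
/-- the primitive characters of conductor `c` -/
noncomputable def PQ (c : ℕ) : Finset PrimChar :=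
  if h : {π : PrimChar | π.q = c}.Finite then h.toFinset else ∅

/-- the product of `conj π` and `π'` -/
noncomputable def pc2 (π π' : PrimChar) : DirichletCharacter ℂ (π.q * π'.q) :=
  DirichletCharacter.changeLevel (Dvd.intro _ rfl) π.χ⁻¹ *
    DirichletCharacter.changeLevel (Dvd.intro_left _ rfl) π'.χ

/-- the sum of the values `f(n)`, `n ≤ u`, as a Dirichlet series `s ∫ F(u) u^{-s-1} du` -/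
noncomputable def Pf (f : ℕ → ℝ) (s : ℝ) : ℝ :=
  s * ∫ u in Ioi (1 : ℝ), (∑ n ∈ Finset.Icc 1 ⌊u⌋₊, f n) * u ^ (-s - 1)

/-- the real values of a Dirichlet character -/
noncomputable def rv {q : ℕ} (χ : DirichletCharacter ℂ q) : ArithmeticFunction ℝ :=
  ⟨fun n => if n = 0 then 0 else (cv χ n).re, by simp⟩

/-- the Dirichlet convolution of the values of `π` and `g` -/
noncomputable def cg (π : PrimChar) (g : ℕ → ℂ) (N : ℕ) : ℂ :=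
  ∑ x ∈ N.divisorsAntidiagonal, co π x.1 * g x.2

open scoped Classical in
/-- (P2): cancellation against the character `ξ` -/
def P2 (ξ : PrimChar) (T ω : ℝ) (A₀ A₂ : ℕ) (a : ℕ → ℂ) : Prop :=
  ∀ (G : ℕ) (N₀ v : ℝ), 1 ≤ G → (G : ℝ) ≤ T ^ ω → T ^ (1 / 3 : ℝ) ≤ N₀ → N₀ ≤ T ^ 2 →
    |v| ≤ Real.log T ^ A₂ →
    ‖∑ N ∈ (Finset.Icc 1 ⌊3 * N₀⌋₊).filter (fun N => G ∣ N),
      a N * co ξ (N / G) * ei (v * Real.log N) * ((hat (Real.log (N / N₀)) : ℝ) : ℂ)‖ ≤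
      N₀ / G * tk A₀ G / Real.log T ^ A₂

/-! ### Divisor functions -/

/-- (DVA) elementary properties. -/
def T_DVA : Prop :=
  (∀ k n : ℕ, 1 ≤ k → 1 ≤ n → 1 ≤ tk k n) ∧ (∀ k n : ℕ, 1 ≤ n → tk k n ≤ tk (k + 1) n) ∧
  (∀ k m n : ℕ, 1 ≤ k → tk k (m * n) ≤ tk k m * tk k n) ∧
  (∀ k n d : ℕ, 1 ≤ k → n ≠ 0 → d ∣ n → tk k d ≤ tk k n) ∧
  (∀ k l n : ℕ, 1 ≤ k → 1 ≤ l → tk k n * tk l n ≤ tk (k * l) n) ∧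
  (∀ k n : ℕ, ∑ d ∈ n.divisors, tk k d = tk (k + 1) n) ∧
  (∀ k l n : ℕ, ∑ x ∈ n.divisorsAntidiagonal, tk k x.1 * tk l x.2 = tk (k + l) n)

/-- (DVS) sums of divisor functions. -/
def T_DVS : Prop :=
  ∀ (k : ℕ) (N : ℕ), 1 ≤ N → ∑ n ∈ Finset.Icc 1 N, tk k n / n ≤ (1 + Real.log N) ^ k ∧
    ∑ n ∈ Finset.Icc 1 N, tk k n ≤ N * (1 + Real.log N) ^ k

/-- (DVE) size of divisor functions. -/
def T_DVE : Prop :=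
  ∀ (k : ℕ) (ε : ℝ), 0 < ε → ∃ C : ℝ, 0 < C ∧ ∀ n : ℕ, 1 ≤ n → tk k n ≤ C * (n : ℝ) ^ ε

/-! ### Characters -/

/-- (FPQ) the primitive characters of a given conductor. -/
def T_FPQ : Prop :=
  (∀ c : ℕ, {π : PrimChar | π.q = c}.Finite) ∧ (∀ (c : ℕ) (π : PrimChar), π ∈ PQ c ↔ π.q = c) ∧
    ∀ c : ℕ, ((PQ c).card : ℝ) ≤ c

/-- (PD) the product of two primitive characters. -/
def T_PD : Prop :=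
  (∀ (π π' : PrimChar) (n : ℕ), n ≠ 0 → cv (pc2 π π') n = conj (co π n) * co π' n) ∧
    ∀ π π' : PrimChar, π ≠ π' → pc2 π π' ≠ 1

/-- (GI) Gauss sums of imprimitive characters. -/
def T_GI : Prop :=
  ∀ (π : PrimChar) (q : ℕ), 1 ≤ q → π.q ∣ q →
    ‖∑ a ∈ (Finset.Icc 1 q).filter (fun a => a.Coprime q),
      conj (co π a) * ei (2 * Real.pi * a / q)‖ ≤ Real.sqrt π.q

/-- (CA) expansion of an additive character. -/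
def T_CA : Prop :=
  ∀ q n : ℕ, 1 ≤ q → 1 ≤ n → n.Coprime q →
    ei (2 * Real.pi * n / q) = 1 / (q.totient : ℂ) * ∑ c ∈ q.divisors, ∑ π ∈ PQ c,
      (∑ a ∈ (Finset.Icc 1 q).filter (fun a => a.Coprime q),
        conj (co π a) * ei (2 * Real.pi * a / q)) * co π n

/-- (CH) bilinear sums with an additive character. -/
def T_CH : Prop :=
  ∀ (q : ℕ) (s t : Finset ℕ) (α β : ℕ → ℂ), 1 ≤ q → 0 ∉ s → (∀ m ∈ t, m.Coprime q ∧ 1 ≤ m) →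
    ‖∑ M ∈ s, ∑ m ∈ t, α M * β m * ei (2 * Real.pi * (M * m) / q)‖ ≤
      ∑ g ∈ q.divisors, 1 / ((q / g).totient : ℝ) * ∑ e ∈ (q / g).divisors,
        ∑ c ∈ (q / g).divisors, Real.sqrt c * ∑ π ∈ PQ c,
          ‖∑ M ∈ s.filter (fun M => g * e ∣ M), α M * co π (M / (g * e))‖ *
            ‖∑ m ∈ t, β m * co π m‖

/-- (LB) the bilinear large sieve. -/
def T_LB : Prop :=
  ∀ (Q M P : ℕ) (s t : Finset ℕ) (α β : ℕ → ℂ), s ⊆ Finset.Icc 1 M → t ⊆ Finset.Icc 1 P →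
    ∑ c ∈ Finset.Icc 1 Q, ∑ π ∈ PQ c, ‖∑ m ∈ s, α m * co π m‖ * ‖∑ m ∈ t, β m * co π m‖ ≤
      2 * Real.sqrt (((Q : ℝ) ^ 2 + 4 * Real.pi * (M + 1)) *
        ((Q : ℝ) ^ 2 + 4 * Real.pi * (P + 1))) *
        (Real.sqrt (∑ m ∈ s, ‖α m‖ ^ 2) * Real.sqrt (∑ m ∈ t, ‖β m‖ ^ 2))

/-- (AS) exchange of the sums over the moduli, the divisors and the conductors. -/
def T_AS : Prop :=
  ∀ j : ℕ, 1 ≤ j → ∃ (A : ℕ) (C : ℝ), 0 < C ∧ ∀ (Q : ℕ) (x : ℕ → ℕ → ℝ), 1 ≤ Q →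
    (∀ c G, 0 ≤ x c G) →
    ∑ q ∈ Finset.Icc Q (3 * Q), tk j q / q * ∑ g ∈ q.divisors, 1 / ((q / g).totient : ℝ) *
      ∑ e ∈ (q / g).divisors, ∑ c ∈ (q / g).divisors, Real.sqrt c * x c (g * e) ≤
    C * (1 + Real.log Q) ^ A / Q * ∑ g ∈ Finset.Icc 1 (3 * Q), ∑ e ∈ Finset.Icc 1 (3 * Q),
      tk j g * tk j e * ∑ c ∈ Finset.Icc 1 (3 * Q), tk j c / Real.sqrt c * x c (g * e)

/-! ### Siegel's theorem -/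

/-- (SGA) partial sums of a triple convolution. -/
def T_SGA : Prop :=
  ∃ C : ℝ, 0 < C ∧ ∀ (f₁ f₂ f₃ : ArithmeticFunction ℝ) (B : ℝ), 1 ≤ B →
    (∀ n, |f₁ n| ≤ 1 ∧ |f₂ n| ≤ 1 ∧ |f₃ n| ≤ 1) →
    (∀ N : ℕ, |∑ n ∈ Finset.Icc 1 N, f₁ n| ≤ B ∧ |∑ n ∈ Finset.Icc 1 N, f₂ n| ≤ B ∧
      |∑ n ∈ Finset.Icc 1 N, f₃ n| ≤ B) → ∀ N : ℕ, 1 ≤ N →
    |∑ n ∈ Finset.Icc 1 N, (f₁ * (f₂ * f₃)) n| ≤ C * B ^ 3 * (N : ℝ) ^ (3 / 4 : ℝ)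

/-- (SGB) lower bound at `1` from a non-negative value at `β`. -/
def T_SGB : Prop :=
  ∀ β : ℝ, 7 / 8 ≤ β → β < 1 → ∃ c : ℝ, 0 < c ∧ ∀ (g : ArithmeticFunction ℝ) (A : ℝ), 1 ≤ A →
    (∀ N : ℕ, |∑ n ∈ Finset.Icc 1 N, g n| ≤ A * (N : ℝ) ^ (3 / 4 : ℝ)) → g 1 = 1 →
    (∀ n, 0 ≤ (((ArithmeticFunction.zeta : ArithmeticFunction ℕ) : ArithmeticFunction ℝ) * g) n) →
    0 ≤ Pf g β → c * A ^ (-(8 * (1 - β))) ≤ Pf g 1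

/-- (SGC) the Dirichlet series of a triple convolution. -/
def T_SGC : Prop :=
  ∀ (f₁ f₂ f₃ : ArithmeticFunction ℝ) (B : ℝ), (∀ n, |f₁ n| ≤ 1 ∧ |f₂ n| ≤ 1 ∧ |f₃ n| ≤ 1) →
    (∀ N : ℕ, |∑ n ∈ Finset.Icc 1 N, f₁ n| ≤ B ∧ |∑ n ∈ Finset.Icc 1 N, f₂ n| ≤ B ∧
      |∑ n ∈ Finset.Icc 1 N, f₃ n| ≤ B) → ∀ s : ℝ, 3 / 4 < s →
    Pf (f₁ * (f₂ * f₃) : ArithmeticFunction ℝ) s = Pf f₁ s * Pf f₂ s * Pf f₃ s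

/-- (SGD) the coefficients of the product of the four L-functions are non-negative. -/
def T_SGD : Prop :=
  ∀ (q₁ q₂ : ℕ) (χ₁ : DirichletCharacter ℂ q₁) (χ₂ : DirichletCharacter ℂ q₂), χ₁ ^ 2 = 1 →
    χ₂ ^ 2 = 1 → ∀ n, 0 ≤ (((ArithmeticFunction.zeta : ArithmeticFunction ℕ) :
      ArithmeticFunction ℝ) * (rv χ₁ * (rv χ₂ * (rv χ₁).pmul (rv χ₂)))) n

/-- (SGE) one real L-function: continuity, the value to the right of `1`, bounds. -/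
def T_SGE : Prop :=
  ∃ C : ℝ, 0 < C ∧ ∀ (q : ℕ) (χ : DirichletCharacter ℂ q), 1 ≤ q → χ ≠ 1 → χ ^ 2 = 1 →
    ContinuousOn (Pf (rv χ)) (Ioi 0) ∧ (∀ s : ℝ, 1 < s → s ≤ 2 → Pf (rv χ) s = ‖DS (cv χ) 0 s‖) ∧
    (∀ s : ℝ, 1 ≤ s → 0 < Pf (rv χ) s) ∧ ∀ s : ℝ, 1 ≤ s → s ≤ 2 → Pf (rv χ) s ≤ C * Real.log (q + 2)

/-- (SGP) Siegel's theorem for primitive characters. -/
def T_SGP : Prop :=
  ∀ ε : ℝ, 0 < ε → ∃ c : ℝ, 0 < c ∧ ∀ (q : ℕ) (χ : DirichletCharacter ℂ q), 1 ≤ q →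
    χ.IsPrimitive → χ ≠ 1 → χ ^ 2 = 1 → c * (q : ℝ) ^ (-ε) ≤ Pf (rv χ) 1

/-- (SG) Siegel's theorem, for all real characters and all points to the right of `1`. -/
def T_SG : Prop :=
  ∀ ε : ℝ, 0 < ε → ∃ c : ℝ, 0 < c ∧ ∀ (q : ℕ) (χ : DirichletCharacter ℂ q) (x : ℝ), 1 ≤ q →
    χ ≠ 1 → χ ^ 2 = 1 → 0 < x → x ≤ 1 → c * (q : ℝ) ^ (-ε) ≤ ‖DS (cv χ) 0 (1 + x)‖

/-- (LO) lower bound for all characters. -/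
def T_LO : Prop :=
  ∀ ε : ℝ, 0 < ε → ∃ (K : ℕ) (c : ℝ), 0 < c ∧ c ≤ 1 ∧ ∀ (q : ℕ) (χ : DirichletCharacter ℂ q)
    (s : ℂ), 1 ≤ q → χ ≠ 1 → 1 < s.re → s.re ≤ 2 →
    c / ((q : ℝ) ^ ε * Real.log (q * (|s.im| + 3)) ^ K) ≤ ‖DS (cv χ) 0 s‖

/-- (SW) the theorem of Siegel and Walfisz. -/
def T_SW : Prop :=
  ∀ A B : ℕ, ∃ X₀ : ℝ, ∀ X : ℝ, X₀ ≤ X → ∀ (q : ℕ) (χ : DirichletCharacter ℂ q) (w : ℂ), 1 ≤ q →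
    (q : ℝ) ≤ Real.log X ^ B → χ ≠ 1 → 0 ≤ w.re → w.re ≤ 1 / 2 → |w.im| ≤ Real.log X ^ B →
    ‖TX X (fun n => cv χ n * (n : ℂ) ^ (-w))‖ ≤ X / Real.log X ^ A

/-- (PS) the test polynomial against characters of small conductor. -/
def T_PS : Prop :=
  ∀ (D : Dat) (A B : ℕ), D.Ok → ∃ T₀ : ℝ, ∀ T : ℝ, T₀ ≤ T → ∀ (π : PrimChar) (P v : ℝ),
    π ≠ D.ξ → (π.q : ℝ) ≤ Real.log T ^ B → T ^ (1 / 4 : ℝ) ≤ P → P ≤ T → |v| ≤ Real.log T ^ B →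
    ‖∑ p ∈ Pm T, D.ρ T p * co π p * ei (v * Real.log p) *
      ((hat (Real.log (p / P)) : ℝ) : ℂ)‖ ≤ P / Real.log T ^ A

/-! ### Sums of the Möbius function -/

/-- (IM) from bounds on the line to sums, for bounded coefficients. -/
def T_IM : Prop :=
  ∀ k E : ℕ, ∃ C : ℝ, 0 < C ∧ ∀ (a : ℕ → ℂ) (X A : ℝ), (∀ n, ‖a n‖ ≤ 1) → 8 ≤ X →
    (∀ t : ℝ, ‖DS a k (((1 + 1 / Real.log X : ℝ) : ℂ) + t * Complex.I)‖ ≤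
      A * Real.log (|t| + 3) ^ E) →
    ‖∑ n ∈ Finset.Icc 1 (NX X), a n * ((hat (Real.log (n / X)) : ℝ) : ℂ)‖ ≤
      C * A * X / Real.log X ^ k

/-- (DM) derivatives of the inverse of a Dirichlet L-function. -/
def T_DM : Prop :=
  ∀ (q : ℕ) (χ : DirichletCharacter ℂ q) (k : ℕ), 1 ≤ q → ∃ (C : ℝ) (E : ℕ), 0 < C ∧
    ∀ s : ℂ, 1 < s.re → s.re ≤ 2 →
    ‖DS (fun n => ((ArithmeticFunction.moebius n : ℤ) : ℂ) * cv χ n) k s‖ ≤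
      C * Real.log (|s.im| + 3) ^ E

/-- (MU) the sum of the Möbius function times a character. -/
def T_MU : Prop :=
  ∀ (q : ℕ) (χ : DirichletCharacter ℂ q) (A : ℕ), 1 ≤ q → ∃ C : ℝ, 0 < C ∧ ∀ N : ℕ, 2 ≤ N →
    ‖∑ n ∈ Finset.Icc 1 N, ((ArithmeticFunction.moebius n : ℤ) : ℂ) * cv χ n‖ ≤
      C * N / Real.log N ^ A

/-- (MG) the same with a coprimality condition. -/
def T_MG : Prop :=
  ∀ (q : ℕ) (χ : DirichletCharacter ℂ q) (A : ℕ), 1 ≤ q → ∃ C : ℝ, 0 < C ∧ ∀ N G : ℕ, 2 ≤ N →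
    1 ≤ G →
    ‖∑ n ∈ (Finset.Icc 1 N).filter (fun n => n.Coprime G),
      ((ArithmeticFunction.moebius n : ℤ) : ℂ) * cv χ n‖ ≤ C * tk 4 G * N / Real.log N ^ A

/-- (ML) the sum of `μ(h) (G,h)/h` with a smooth cutoff. -/
def T_ML : Prop :=
  ∀ (q A : ℕ) (δ ζ ω : ℝ) (φ : ℝ → ℝ), 1 ≤ q → 0 < δ → δ ≤ 1 / 2 → Cut δ φ → 0 < ω →
    4 * ω ≤ ζ → ∃ C T₀ : ℝ, 0 < C ∧ ∀ (T : ℝ) (G : ℕ), T₀ ≤ T → 1 ≤ G → (G : ℝ) ≤ T ^ ω →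
    |∑ h ∈ (Finset.Icc 1 ⌊T ^ ζ⌋₊).filter (fun h => h.Coprime q),
      ((ArithmeticFunction.moebius h : ℤ) : ℝ) * φ (Real.log h / (ζ * Real.log T)) *
        (Nat.gcd G h : ℝ) / h| ≤ C * tk 8 G / Real.log T ^ A

/-! ### Cancellation against the distinguished character -/

/-- a variable: `(μ(n) or 1) conj π(n) Φ(log n / L)` -/
noncomputable def va (b : Bool) (π : PrimChar) (Φ : ℝ → ℂ) (L : ℝ) (n : ℕ) : ℂ :=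
  (if b then ((ArithmeticFunction.moebius n : ℤ) : ℂ) else 1) * conj (co π n) *
    Φ (Real.log n / L)

open scoped Classical in
/-- (NA) one long variable with cancellation. -/
def T_NA : Prop :=
  ∀ (ξ π : PrimChar) (b : Bool) (k A : ℕ) (ζ ω : ℝ), (b = true ∨ π ≠ ξ) → 1 ≤ k → 0 < ω →
    4 * ω ≤ ζ → ζ ≤ 1 / 3 → ∃ C T₀ : ℝ, 0 < C ∧ ∀ (T : ℝ) (Φ : ℝ → ℂ) (M : ℝ) (r : ℕ → ℂ),
    T₀ ≤ T → Kf 1 M Φ → (∀ y, 0 ≤ y → y ≤ ζ → Φ y = 0) → (∀ m, ‖r m‖ ≤ tk k m) →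
    ∀ (G : ℕ) (N₀ v : ℝ), 1 ≤ G → (G : ℝ) ≤ T ^ ω → T ^ (1 / 3 : ℝ) ≤ N₀ → N₀ ≤ T ^ 2 →
    |v| ≤ Real.log T ^ A →
    ‖∑ N ∈ (Finset.Icc 1 ⌊3 * N₀⌋₊).filter (fun N => G ∣ N),
      (∑ x ∈ N.divisorsAntidiagonal, va b π Φ (Real.log T) x.1 * r x.2) * co ξ (N / G) *
        ei (v * Real.log N) * ((hat (Real.log (N / N₀)) : ℝ) : ℂ)‖ ≤
      C * M * (N₀ / G * tk (4 * (k + 1)) G / Real.log T ^ A)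

open scoped Classical in
/-- (NB) the pair of a smooth variable and a short Möbius variable with the same character. -/
def T_NB : Prop :=
  ∀ (ξ : PrimChar) (k A : ℕ) (δ ζ ω : ℝ) (φ : ℝ → ℝ), 1 ≤ k → 0 < δ → δ ≤ 1 / 2 → Cut δ φ →
    0 < ω → 4 * ω ≤ ζ → ζ ≤ 1 / 20 → ∃ C T₀ : ℝ, 0 < C ∧ ∀ (T : ℝ) (r : ℕ → ℂ), T₀ ≤ T →
    (∀ m, ‖r m‖ ≤ tk k m) → (∀ m : ℕ, T ^ (1 / 8 : ℝ) < m → r m = 0) →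
    ∀ (G : ℕ) (N₀ v : ℝ), 1 ≤ G → (G : ℝ) ≤ T ^ ω → T ^ (1 / 3 : ℝ) ≤ N₀ → N₀ ≤ T ^ 2 →
    |v| ≤ Real.log T ^ A →
    ‖∑ N ∈ (Finset.Icc 1 ⌊3 * N₀⌋₊).filter (fun N => G ∣ N),
      (∑ x ∈ N.divisorsAntidiagonal, conj (co ξ x.1) * ∑ y ∈ x.2.divisorsAntidiagonal,
        va true ξ (fun x => ((φ (x / ζ) : ℝ) : ℂ)) (Real.log T) y.1 * r y.2) * co ξ (N / G) *
        ei (v * Real.log N) * ((hat (Real.log (N / N₀)) : ℝ) : ℂ)‖ ≤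
      C * (N₀ / G * tk (8 * (k + 1)) G / Real.log T ^ A)

/-- the product of the parts of a combination besides the normalizers -/
noncomputable def Dat.Fc (D : Dat) (c : D.Cb) (T : ℝ) (s : ℂ) : ℂ :=
  ∏ i, D.gp i (c i).1 (c i).2 T s

/-- (NC) every included combination satisfies (P1) and (P2). -/
def T_NC : Prop :=
  ∀ D : Dat, D.Ok → ∃ (k A₀ : ℕ) (ω : ℝ), 1 ≤ k ∧ 0 < ω ∧ ω ≤ 1 / 100 ∧ ∀ A₂ : ℕ, ∃ T₀ : ℝ,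
    ∀ T : ℝ, T₀ ≤ T → ∀ c ∈ D.Inc, ∃ (i : D.I) (g₁ g₂ : ℕ → ℂ),
      (∀ N, ‖g₁ N‖ ≤ tk k N ∧ ‖g₂ N‖ ≤ tk k N) ∧
      (∀ N : ℕ, T ^ (D.n + 2) < N → g₁ N = 0 ∧ g₂ N = 0) ∧
      (∀ s : ℂ, D.Fc c T s =
        (D.ch i).L s * Dp g₁ ⌊T ^ (D.n + 2)⌋₊ s + Dp g₂ ⌊T ^ (D.n + 2)⌋₊ s) ∧
      P2 D.ξ T ω A₀ A₂ (fun N => conj (cg (D.ch i) g₁ N)) ∧
      P2 D.ξ T ω A₀ A₂ (fun N => conj (g₂ N))

/-! ### The bilinear theorem -/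

/-- (BD) the bilinear sum for one block of moduli, one block of `N` and one block of primes:
bound without saving. -/
def T_BD : Prop :=
  ∀ (D : Dat) (Q₁ Q₂ k j : ℕ) (ω C₁ : ℝ), D.Ok → 1 ≤ Q₁ → 1 ≤ Q₂ → 1 ≤ k → 1 ≤ j → 0 < ω →
    ω ≤ 1 / 100 → 1 ≤ C₁ → ∃ (C₀ : ℕ) (T₀ : ℝ), ∀ (T : ℝ) (a w : ℕ → ℂ), T₀ ≤ T →
    (∀ N, ‖a N‖ ≤ tk k N) → (∀ q, ‖w q‖ ≤ tk j q) →
    ∀ (Y N₀ P v : ℝ), 1 ≤ Y → Y ≤ T ^ (ω / 2) → T ^ (1 / 4 : ℝ) ≤ P → P ≤ T → N₀ ≤ T ^ 2 →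
    T ^ (1 / 3 : ℝ) ≤ N₀ → N₀ * P ≤ C₁ * (Y * T) →
    ∑ q ∈ (Finset.Icc 1 ⌊3 * Y⌋₊).filter (fun q : ℕ => Y ≤ q), ‖w q‖ / q *
      ‖∑ N ∈ Finset.Icc 1 ⌊3 * N₀⌋₊, ∑ p ∈ Pm T, a N * D.ρ T p *
        ei (2 * Real.pi * (Q₂ * N * p) / (Q₁ * q)) * ei (v * (Real.log N + Real.log p)) *
        ((hat (Real.log (N / N₀)) * hat (Real.log (p / P)) : ℝ) : ℂ)‖ ≤
      T * Real.log T ^ C₀

/-- (BC) the same with a saving. -/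
def T_BC : Prop :=
  ∀ (D : Dat) (Q₁ Q₂ k j A₀ A : ℕ) (ω C₁ : ℝ), D.Ok → 1 ≤ Q₁ → 1 ≤ Q₂ → 1 ≤ k → 1 ≤ j → 0 < ω →
    ω ≤ 1 / 100 → 1 ≤ C₁ → ∃ A₃ : ℕ, ∀ A₂ : ℕ, A₃ ≤ A₂ → ∃ T₀ : ℝ, ∀ (T : ℝ) (a w : ℕ → ℂ),
    T₀ ≤ T → (∀ N, ‖a N‖ ≤ tk k N) → (∀ q, ‖w q‖ ≤ tk j q) → P2 D.ξ T ω A₀ A₂ a →
    ∀ (Y N₀ P v : ℝ), 1 ≤ Y → Y ≤ T ^ (ω / 2) → T ^ (1 / 4 : ℝ) ≤ P → P ≤ T → N₀ ≤ T ^ 2 →
    T ^ (1 / 3 : ℝ) ≤ N₀ → N₀ * P ≤ C₁ * (Y * T) → |v| ≤ Real.log T ^ A₂ →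
    ∑ q ∈ (Finset.Icc 1 ⌊3 * Y⌋₊).filter (fun q : ℕ => Y ≤ q), ‖w q‖ / q *
      ‖∑ N ∈ Finset.Icc 1 ⌊3 * N₀⌋₊, ∑ p ∈ Pm T, a N * D.ρ T p *
        ei (2 * Real.pi * (Q₂ * N * p) / (Q₁ * q)) * ei (v * (Real.log N + Real.log p)) *
        ((hat (Real.log (N / N₀)) * hat (Real.log (p / P)) : ℝ) : ℂ)‖ ≤
      T / Real.log T ^ A

/-- (BI) the bilinear theorem. -/
def T_BI : Prop :=
  ∀ (D : Dat) (Q₁ Q₂ k j A₀ A : ℕ) (ω c₁ C₁ : ℝ), D.Ok → 1 ≤ Q₁ → 1 ≤ Q₂ → 1 ≤ k → 1 ≤ j →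
    0 < ω → ω ≤ 1 / 100 → 0 < c₁ → 0 < C₁ → ∃ (A₂ : ℕ) (T₀ : ℝ), ∀ (T : ℝ) (a w : ℕ → ℂ)
    (f F : ℝ → ℂ), T₀ ≤ T → (∀ N, ‖a N‖ ≤ tk k N) → (∀ q, ‖w q‖ ≤ tk j q) →
    P2 D.ξ T ω A₀ A₂ a → Continuous F → (∀ v, ‖F v‖ ≤ C₁ * (1 + |v|) ^ (-(3 : ℝ))) →
    (∀ u, f u = ∫ v, F v * ei (v * u)) → (∀ u, c₁ < |u| → f u = 0) → ∀ J : ℕ,
    (J : ℝ) ≤ T ^ (ω / 2) →
    ‖∑ q ∈ Finset.Icc 1 J, w q / q * ∑ N ∈ Finset.Icc 1 ⌊T ^ 2⌋₊, ∑ p ∈ Pm T,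
      a N * D.ρ T p * ei (2 * Real.pi * (Q₂ * N * p) / (Q₁ * q)) *
        f (Real.log N + Real.log p - Real.log q - Real.log T)‖ ≤ T / Real.log T ^ A

end Pool.Agent.H47.VT
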