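import Pool.Agent.H47.VT.Defs
import Pool.Agent.H47.DT.Targets1

/-!
# Theorem (V), section 1: moments (MP_9f0eeb_nt), exact targets
-/

set_option autoImplicit false

open Complex MeasureTheory Set

namespace Pool.Agent.H47.VT

open Pool.Agent.H23.GLH (PrimChar)
open Pool.Agent.H74.DT (pt)
open Pool.Agent.H47.DT (Kf Dp)

/-- (DQ) high moments of products of two Dirichlet polynomials with coefficients of the class;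
now the smooth factor `Φ` vanishes on `[0, l₀]` (or `l₀ = 0`); mirror image of `T_DP`. -/
def T_DQ : Prop :=
  ∀ k : ℕ, 1 ≤ k → ∃ (A : ℕ) (C : ℝ), 0 < C ∧ ∀ (π : PrimChar) (T l₁ l₂ l₀ K x M₁ M₂ : ℝ)
    (Φ Ψ : ℝ → ℂ), 3 ≤ T → 0 < l₁ → 0 < l₂ → k * (l₁ + l₂) ≤ 1 → 0 ≤ l₀ →
    1 ≤ K → 1 ≤ x → Kf A M₁ Φ → Kf A M₂ Ψ → (∀ y, l₁ ≤ y → Φ y = 0) →
    (∀ y, l₂ ≤ y → Ψ y = 0) → ((∀ y, 0 ≤ y → y ≤ l₀ → Φ y = 0) ∨ l₀ = 0) →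
    ∫ t in (0 : ℝ)..(K * T),
      ‖Dp π (Pool.Agent.H47.DT.sl false (Real.log T) Φ) ⌊T ^ l₁⌋₊ (pt T x t) *
        Dp π (Pool.Agent.H47.DT.sl true (Real.log T) Ψ) ⌊T ^ l₂⌋₊ (pt T x t)‖ ^ (2 * k) ≤
      C * K * T * (M₁ ^ (2 * k) * M₂ ^ (2 * k) * Real.exp (-(2 * k * l₀ * (x - 1))))

/-- (MA) the pieces of a denominator. -/
def T_MA : Prop :=
  ∀ D : Dat, D.Ok → ∃ (C : ℕ) (R₀ : ℝ), ∀ R : ℝ, R₀ ≤ R → ∃ T₀ : ℝ, ∀ T x : ℝ, T₀ ≤ T →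
    |x - R| ≤ 1 → ∀ (a : Bool) (i : D.I) (k : ℕ), D.dn i = true → k + 1 < D.K →
    ∫ t in (T / 2)..(3 * T),
      ‖D.Sh i R T (pt T (x + lam a * R) t) * D.dl i k T (pt T x t)‖ ^ (2 ^ (k + 2)) ≤
      T * (R ^ C * Real.exp (-((1 - D.δ) * D.θ (k + 1) * R))) ^ (2 ^ (k + 2))

/-- (MN) the pieces of a numerator. -/
def T_MN : Prop :=
  ∀ D : Dat, D.Ok → ∃ (C : ℕ) (R₀ : ℝ), ∀ R : ℝ, R₀ ≤ R → ∃ T₀ : ℝ, ∀ T x : ℝ, T₀ ≤ T →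
    |x - R| ≤ 1 → ∀ (a : Bool) (i : D.I) (k : ℕ), D.dn i = false → k + 1 < D.K →
    ∫ t in (T / 2)..(3 * T),
      ‖D.Sh i R T (pt T (x + lam a * R) t) * D.dl i k T (pt T x t)‖ ^ (2 ^ (k + 2)) ≤
      T * (R ^ C * Real.exp (-((1 - D.δ) * D.θ (k + 1) * R))) ^ (2 ^ (k + 2))

/-- (MB) the base polynomials. -/
def T_MB : Prop :=
  ∀ D : Dat, D.Ok → ∃ (C : ℕ) (R₀ : ℝ), ∀ R : ℝ, R₀ ≤ R → ∃ T₀ : ℝ, ∀ T x : ℝ, T₀ ≤ T →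
    |x - R| ≤ 1 → ∀ (a : Bool) (i : D.I) (k : ℕ), k + 1 = D.K →
    ∫ t in (T / 2)..(3 * T),
      ‖D.Sh i R T (pt T (x + lam a * R) t) * D.dl i k T (pt T x t)‖ ^ (2 ^ (k + 2)) ≤
      T * (R ^ C) ^ (2 ^ (k + 2))

/-- (MC) the remainders of the denominators. -/
def T_MC : Prop :=
  ∀ D : Dat, D.Ok → ∃ (C : ℕ) (R₀ : ℝ), ∀ R : ℝ, R₀ ≤ R → ∃ T₀ : ℝ, ∀ T x : ℝ, T₀ ≤ T →
    |x - R| ≤ 1 → ∀ i : D.I, D.dn i = true →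
    ∫ t in (T / 2)..(3 * T), ‖D.ν i T (pt T x t)‖ ^ 2 ≤
      T * (R ^ C * Real.exp (-((1 / 2 - 2 * D.δ) * R))) ^ 2

/-- (MR) the remainders of the numerators. -/
def T_MR : Prop :=
  ∀ D : Dat, D.Ok → ∃ (C : ℕ) (R₀ : ℝ), ∀ R : ℝ, R₀ ≤ R → ∃ T₀ : ℝ, ∀ T x : ℝ, T₀ ≤ T →
    |x - R| ≤ 1 → ∀ (a : Bool) (i : D.I), D.dn i = false →
    ∫ t in (T / 2)..(3 * T),
      ‖D.Sh i R T (pt T (x + lam a * R) t) * D.rm i T (pt T x t)‖ ^ 2 ≤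
      T * (R ^ C * Real.exp (-((1 / 2 - 2 * D.δ) * R))) ^ 2

/-- (MD) the fourth moment of the test polynomial on the two lines. -/
def T_MD : Prop :=
  ∀ D : Dat, D.Ok → ∃ C : ℝ, 0 < C ∧ ∀ R : ℝ, 1 ≤ R → ∃ T₀ : ℝ, ∀ T : ℝ, T₀ ≤ T →
    (∫ t in (T / 2)..(3 * T), ‖D.S T (pt T R t)‖ ^ 4 ≤ T * (C * Real.exp (R / 2)) ^ 4) ∧
    ∫ t in (T / 2)..(3 * T), ‖D.S T (pt T (-R) t)‖ ^ 4 ≤
      T * (C * Real.exp (-((1 / 2 - 2 * D.δ) * R))) ^ 4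

/-- (ME) crude mean squares on the lines `x = -R-4` and `x = 3R+4`. -/
def T_ME : Prop :=
  ∀ D : Dat, D.Ok → ∃ C R₀ : ℝ, 0 < C ∧ ∀ R : ℝ, R₀ ≤ R → ∃ T₀ : ℝ, ∀ T x : ℝ, T₀ ≤ T →
    (x = -R - 4 ∨ x = 3 * R + 4) →
    (∀ i : D.I, D.dn i = true →
      (∫ t in (T / 2)..(3 * T), ‖(D.ch i).L (pt T x t) * D.Lg i 0 T (pt T x t)‖ ^ 2) ≤
        T * Real.exp (C * R) ∧
      (∫ t in (T / 2)..(3 * T),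
        ‖D.Sh i R T (pt T (x + 2 * R) t) * D.Lg i 0 T (pt T x t)‖ ^ 2) ≤
        T * Real.exp (C * R)) ∧
    (∀ i : D.I, D.dn i = false →
      (∫ t in (T / 2)..(3 * T),
        ‖(D.ch i).L (pt T x t) * D.Sh i R T (pt T (x + 2 * R) t)‖ ^ 2) ≤
        T * Real.exp (C * R)) ∧
    (∫ t in (T / 2)..(3 * T), ‖D.S T (pt T x t)‖ ^ 2) ≤ T * Real.exp (C * R)

end Pool.Agent.H47.VT
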