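import Pool.Agent.H47.VT.Targets6

/-!
# Theorem (V), sections 4 and 5: the right side and the analytic part of the left side
(MP_9f0eeb_nt), exact targets
-/

set_option autoImplicit false

open Complex MeasureTheory Set

namespace Pool.Agent.H47.VT

open Pool.Agent.H23.GLH (PrimChar)
open Pool.Agent.H28.MZ (co ei)
open Pool.Agent.H74.DT (pt Cut)
open Pool.Agent.H88.DT (Dp EE sl)
open Pool.Agent.H30.BV (cv)
open ComplexConjugate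

/-! ### Averages -/

/-- a smooth weight on `[5/4, 7/4]` -/
structure Bmp (b : ℝ → ℝ) : Prop where
  smooth : ∀ n : ℕ, ContDiff ℝ n b
  mem : ∀ x, 0 ≤ b x ∧ b x ≤ 1
  supp : ∀ x, b x ≠ 0 → 5 / 4 ≤ x ∧ x ≤ 7 / 4
  mass : 1 / 8 ≤ ∫ x, b x

/-- the smooth average over the heights, shifted by `x₀ T` -/
noncomputable def AvB (b : ℝ → ℝ) (ε T x₀ : ℝ) (f : ℝ → ℂ) : ℂ :=
  ((1 / T : ℝ) : ℂ) * ∫ u : ℝ, (b (u / T - x₀) : ℂ) * EE T ε u f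

/-- (BM) existence of the weight. -/
def T_BM : Prop := ∃ b : ℝ → ℝ, Bmp b

/-! ### Coefficients -/

/-- the values of `π` as an arithmetic function -/
noncomputable def aco (π : PrimChar) : ArithmeticFunction ℂ := ⟨fun n => co π n, by simp [co]⟩

namespace Dat

variable (D : Dat)

open scoped Classical in
/-- the coefficients of the long polynomials -/
noncomputable def apl (i : D.I) (k : ℕ) (T : ℝ) : ArithmeticFunction ℂ :=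
  ⟨fun n => if n = 0 ∨ T ^ D.θ k < n then 0 else
    (cb (D.dn i) D.φ (D.ch i).q (D.θ k) (Real.log T) n : ℂ) * co (D.ch i) n, by simp⟩

/-- the coefficients of the differences -/
noncomputable def adl (i : D.I) (k : ℕ) (T : ℝ) : ArithmeticFunction ℂ :=
  if k + 1 = D.K then D.apl i k T else D.apl i k T - D.apl i (k + 1) T

/-- the coefficients of the pieces -/
noncomputable def agp (i : D.I) (k : Fin D.K) (e : Fin 3) (T : ℝ) : ArithmeticFunction ℂ :=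
  if D.dn i then
    (if e = 0 then D.adl i k T
      else if e = 1 then -((aco (D.ch i) * D.apl i 0 T - 1) * D.adl i k T) else 0)
  else
    (if e = 0 then D.adl i k T
      else if e = 1 ∧ (k : ℕ) + 1 = D.K then aco (D.ch i) - D.apl i 0 T else 0)

open scoped Classical in
/-- the coefficients of the normalizers at the point `s + l R / log T` -/
noncomputable def ash (l : ℝ) (i : D.I) (R T : ℝ) : ArithmeticFunction ℂ :=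
  ⟨fun n => if n = 0 ∨ T ^ (1 / R) < n then 0 else
    (cb (!D.dn i) D.φ (D.ch i).q (1 / R) (Real.log T) n : ℂ) * co (D.ch i) n *
      ((Real.exp (-(l * R * Real.log n / Real.log T)) : ℝ) : ℂ), by simp⟩

/-- the length of the product of all normalizers -/
noncomputable def J (R T : ℝ) : ℕ := ⌊T ^ ((2 * (D.n : ℝ) + 1) / R)⌋₊

/-- the ratio of the conductors -/
noncomputable def Qr : ℝ := (∏ i, ((D.ψ i).q : ℝ)) / ∏ j, ((D.χ j).q : ℝ)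

end Dat

/-- (NR) the included combinations as Dirichlet series. -/
def T_NR : Prop :=
  ∀ D : Dat, D.Ok → ∃ k : ℕ, 1 ≤ k ∧ ∃ T₀ : ℝ, ∀ T : ℝ, T₀ ≤ T → ∀ c ∈ D.Inc,
    ∃ (i : D.I) (g₁ g₂ : ℕ → ℂ),
      (∀ N, ‖g₁ N‖ ≤ tk k N ∧ ‖g₂ N‖ ≤ tk k N) ∧
      (∀ N : ℕ, T ^ (D.n + 2) < N → g₁ N = 0 ∧ g₂ N = 0) ∧
      (∀ s : ℂ, D.Fc c T s =
        (D.ch i).L s * Dp g₁ ⌊T ^ (D.n + 2)⌋₊ s + Dp g₂ ⌊T ^ (D.n + 2)⌋₊ s) ∧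
      ∀ N : ℕ, 1 ≤ N →
        cg (D.ch i) g₁ N + g₂ N = (∏ i : D.I, D.agp i (c i).1 (c i).2 T) N

/-- (WD) the product of the normalizers as a Dirichlet polynomial. -/
def T_WD : Prop :=
  ∀ (D : Dat) (l R T : ℝ), D.Ok → 0 ≤ l → 1 ≤ R → 3 ≤ T →
    (∀ x t : ℝ, ∏ i, D.Sh i R T (pt T (x + l * R) t) =
      Dp (fun n => (∏ i : D.I, D.ash l i R T) n) (D.J R T) (pt T x t)) ∧
    (∀ N : ℕ, ‖(∏ i : D.I, D.ash l i R T) N‖ ≤ tk (2 * D.n + 1) N) ∧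
    ∀ N : ℕ, D.J R T < N → (∏ i : D.I, D.ash l i R T) N = 0

/-- (PC) the included pieces as products. -/
def T_PC : Prop :=
  ∀ (D : Dat) (a : Bool) (c : D.Cb) (R T x t : ℝ), c ∈ D.Inc →
    ∏ i, D.pc a i (c i) R T x t =
      (∏ i, D.Sh i R T (pt T (x + lam a * R) t)) * cj a (D.Fc c T (pt T x t))

/-- (CO) the coefficients at the primes. -/
def T_CO : Prop :=
  ∀ D : Dat, D.Ok → ∀ R : ℝ, 8 ≤ R → ∃ T₀ : ℝ, ∀ T : ℝ, T₀ ≤ T → ∀ p ∈ Pm T,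
    T ^ (1 / 4 : ℝ) < p →
    ∑ c ∈ D.Inc, ((∏ i : D.I, D.ash 2 i R T) * ∏ i : D.I, D.agp i (c i).1 (c i).2 T) p =
      ∑ i, co (D.ψ i) p - ∑ j, co (D.χ j) p

/-! ### The right side -/

/-- (RV) the average of a Dirichlet series times the test polynomial on the right line. -/
def T_RV : Prop :=
  ∀ (D : Dat) (π : PrimChar) (k A : ℕ) (ε : ℝ), D.Ok → 0 < ε → ε ≤ 1 / 10 → ∀ R : ℝ, 0 ≤ R →
    ∃ T₀ : ℝ, ∀ (T u : ℝ) (g : ℕ → ℂ) (K : ℕ), T₀ ≤ T → T ≤ u → u ≤ 2 * T →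
    (∀ N, ‖g N‖ ≤ tk k N) → (K : ℝ) ≤ T ^ A → (∀ N, K < N → g N = 0) →
    ‖EE T ε u (fun t => Dp g K (pt T R t) * D.S T (pt T R t)) -
        ∑ p ∈ Pm T, D.ρ T p * g p / p‖ ≤ 1 / T ∧
    ‖EE T ε u (fun t => π.L (pt T R t) * Dp g K (pt T R t) * D.S T (pt T R t)) -
        ∑ p ∈ Pm T, D.ρ T p * cg π g p / p‖ ≤ 1 / T

/-- (FR) the average of the approximation on the right line. -/
def T_FR : Prop :=
  ∀ D : Dat, D.Ok → ∃ R₀ : ℝ, ∀ R : ℝ, R₀ ≤ R → ∀ ε : ℝ, 0 < ε → ε ≤ 1 / 10 → ∃ T₀ : ℝ,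
    ∀ T u : ℝ, T₀ ≤ T → T ≤ u → u ≤ 2 * T →
    ‖EE T ε u (fun t => D.Ht false R T t * D.S T (pt T R t)) - D.c₀ T‖ ≤ 1 / Real.log T

/-- (MA1) Mertens, nonprincipal characters. -/
def T_M1 : Prop :=
  ∀ (q : ℕ) (χ : DirichletCharacter ℂ q), 1 ≤ q → χ ≠ 1 → ∃ C : ℝ, ∀ N : ℕ,
    ‖∑ p ∈ (Finset.Icc 1 N).filter Nat.Prime, cv χ p * ((Real.log p / p : ℝ) : ℂ)‖ ≤ C

/-- (MA2) Mertens. -/
def T_M2 : Prop :=
  ∃ C : ℝ, ∀ N : ℕ, 1 ≤ N →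
    |∑ p ∈ (Finset.Icc 1 N).filter Nat.Prime, Real.log p / p - Real.log N| ≤ C

/-- (MT) the main term is bounded from below. -/
def T_MT : Prop :=
  ∀ D : Dat, D.Ok → ∃ c T₀ : ℝ, 0 < c ∧ ∀ T : ℝ, T₀ ≤ T → c ≤ ‖D.c₀ T‖

/-! ### The factor of the functional equation -/

/-- the model of the factor of the functional equation, degree one -/
noncomputable def X0 (Q : ℝ) (s : ℂ) : ℂ :=
  (Q : ℂ) ^ (-s) * ((2 * Real.pi : ℝ) : ℂ) ^ s * Complex.Gamma (1 - s) *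
    cexp (-(I * Real.pi * s / 2))

/-- (FX) the factor of the functional equation and its model. -/
def T_FX : Prop :=
  ∀ D : Dat, ∃ (yχ : Fin D.n → ℂ → ℂ) (yψ : Fin (D.n + 1) → ℂ → ℂ) (c : ℂ),
    D.IsYs yχ yψ ∧ ∀ β : ℝ, ∃ C : ℝ, ∀ σ t : ℝ, |σ - 1 / 2| ≤ β → 1 ≤ t →
      ‖D.X yχ yψ (σ + t * I) - c * X0 D.Qr (σ + t * I)‖ ≤ C * Real.exp (-t)

/-- (XZ) size of the model. -/
def T_XZ : Prop :=
  ∀ Q β : ℝ, 0 < Q → ∃ C : ℝ, 0 < C ∧ ∀ σ t : ℝ, |σ - 1 / 2| ≤ β → 1 ≤ t →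
    ‖X0 Q (σ + t * I)‖ ≤ C * t ^ (1 / 2 - σ)

/-- (XL) size of the factor of the functional equation on the left line. -/
def T_XL : Prop :=
  ∀ (D : Dat) (yχ : Fin D.n → ℂ → ℂ) (yψ : Fin (D.n + 1) → ℂ → ℂ), D.IsYs yχ yψ →
    ∀ R : ℝ, 0 ≤ R → ∃ T₀ : ℝ, ∀ T t : ℝ, T₀ ≤ T → T / 2 ≤ t → t ≤ 3 * T →
      ‖D.X yχ yψ (pt T (-R) t)‖ ≤ 2 * Real.exp R

/-- (TC) the Gaussian average of the model at high frequencies. -/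
def T_TC : Prop :=
  ∀ Q ε R A A' : ℝ, 0 < Q → 0 < ε → ε ≤ 1 / 10 → 0 ≤ R → 0 < A → 0 < A' → ∃ T₀ : ℝ,
    ∀ T u η lam : ℝ, T₀ ≤ T → T ≤ u → u ≤ 2 * T → 0 ≤ η → η * Real.log T ≤ R →
      T ^ (1 + ε) ≤ lam → lam ≤ T ^ A →
      ‖EE T ε u (fun t => X0 Q (sl (-η) t) * ei (t * Real.log lam))‖ ≤ T ^ (-A')

/-- (TR) truncation: the Gaussian average of the model times a conjugate L-function. -/
def T_TR : Prop :=
  ∀ (π : PrimChar) (Q ε R A A' : ℝ), 0 < Q → 0 < ε → ε ≤ 1 / 10 → 0 ≤ R → 0 < A → 0 < A' →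
    ∃ T₀ : ℝ, ∀ T u η lam : ℝ, T₀ ≤ T → T ≤ u → u ≤ 2 * T → 0 ≤ η → η * Real.log T ≤ R →
      T ^ (-A) ≤ lam → lam ≤ T ^ A →
      ‖EE T ε u (fun t => X0 Q (sl (-η) t) * conj (π.L (sl η t)) * ei (t * Real.log lam)) -
          ∑ m ∈ Finset.Icc 1 ⌊T ^ (1 + ε) / lam⌋₊,
            conj (co π m) * (((m : ℝ) ^ (-(1 / 2 + η)) : ℝ) : ℂ) *
              EE T ε u (fun t => X0 Q (sl (-η) t) * ei (t * Real.log (m * lam)))‖ ≤ T ^ (-A')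

/-- (KN) the average of the model: stationary phase with a smooth kernel. -/
def T_KN : Prop :=
  ∀ (Q : ℝ) (b : ℝ → ℝ), 0 < Q → Bmp b → ∃ c₁ C₁ : ℝ, 0 < c₁ ∧ 0 < C₁ ∧ ∀ R A ε : ℝ, 0 ≤ R →
    0 < A → 0 < ε → ε ≤ 1 / 100 → ∃ T₀ : ℝ, ∀ T x₀ η : ℝ, T₀ ≤ T → |x₀| ≤ 1 / 20 → 0 ≤ η →
    η * Real.log T ≤ R → ∃ f F : ℝ → ℂ, Continuous F ∧
      (∀ v, ‖F v‖ ≤ C₁ * (1 + |v|) ^ (-(3 : ℝ))) ∧ (∀ u, f u = ∫ v, F v * ei (v * u)) ∧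
      (∀ u, c₁ < |u| → f u = 0) ∧
      ∀ lam : ℝ, T ^ (-A) ≤ lam → lam ≤ T ^ (1 + ε) →
        ‖AvB b ε T x₀ (fun t => X0 Q (sl (-η) t) * ei (t * Real.log lam)) -
          ((lam ^ (1 / 2 + η) / T : ℝ) : ℂ) * ei (2 * Real.pi * lam / Q) *
            f (Real.log lam - Real.log T)‖ ≤ T ^ (-(3 / 2) + 10 * ε)

/-! ### The left side -/

/-- (LE) the left side for one Dirichlet series with (P1), (P2). -/
def T_LE : Prop :=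
  ∀ (D : Dat) (b : ℝ → ℝ) (k j A₀ A : ℕ) (ω : ℝ), D.Ok → Bmp b → 1 ≤ k → 1 ≤ j → 0 < ω →
    ω ≤ 1 / 100 → ∃ (A₂ : ℕ), ∀ (π : PrimChar) (B ε R : ℝ), 0 < B → 0 < ε → ε ≤ 1 / 1000 →
    0 ≤ R → ∃ T₀ : ℝ, ∀ (T x₀ : ℝ) (g w : ℕ → ℂ) (J K : ℕ), T₀ ≤ T → |x₀| ≤ 1 / 20 →
    (∀ N, ‖g N‖ ≤ tk k N) → (∀ q, ‖w q‖ ≤ tk j q) → (J : ℝ) ≤ T ^ (ω / 2) → (K : ℝ) ≤ T ^ B →
    (∀ N, K < N → g N = 0) →
    (P2 D.ξ T ω A₀ A₂ (fun N => conj (g N)) →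
      ‖AvB b ε T x₀ (fun t => X0 D.Qr (pt T (-R) t) * (Dp w J (pt T R t) *
        conj (Dp g K (pt T R t)) * D.S T (pt T (-R) t)))‖ ≤ 1 / Real.log T ^ A) ∧
    (P2 D.ξ T ω A₀ A₂ (fun N => conj (cg π g N)) →
      ‖AvB b ε T x₀ (fun t => X0 D.Qr (pt T (-R) t) * (Dp w J (pt T R t) *
        conj (π.L (pt T R t) * Dp g K (pt T R t)) * D.S T (pt T (-R) t)))‖ ≤
        1 / Real.log T ^ A)

/-- (FL) the factor of the functional equation and the left side. -/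
def T_FL : Prop :=
  ∀ (D : Dat) (b : ℝ → ℝ), D.Ok → Bmp b →
    ∃ (yχ : Fin D.n → ℂ → ℂ) (yψ : Fin (D.n + 1) → ℂ → ℂ), D.IsYs yχ yψ ∧
    ∀ ε : ℝ, 0 < ε → ε ≤ 1 / 1000 → ∃ R₀ : ℝ, ∀ R : ℝ, R₀ ≤ R → ∃ T₀ : ℝ, ∀ T x₀ : ℝ, T₀ ≤ T →
      |x₀| ≤ 1 / 20 →
      ‖AvB b ε T x₀ (fun t => D.X yχ yψ (pt T (-R) t) *
        (D.Ht true R T t * D.S T (pt T (-R) t)))‖ ≤ 1 / Real.log T

end Pool.Agent.H47.VT
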