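import Pool.Agent.H88.DT.Defs3
import Pool.Agent.H74.DT.Targets

/-!
# Theorem (V): zeros of products of Dirichlet L-functions, degree one more: definitions
(MP_9f0eeb_nt)

`χ_j` (`j < n`) are the denominators, `ψ_i` (`i ≤ n`) the numerators.  The index type of all
factors is `Fin n ⊕ Fin (n + 1)`.
-/

set_option autoImplicit false

open Complex MeasureTheory Set

namespace Pool.Agent.H47.VT

open Pool.Agent.H23.GLH (PrimChar)
open Pool.Agent.H28.MZ (co Bf ei)
open Pool.Agent.H74.DT (Cut cs cm pt)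
open Pool.Agent.H88.DT (IsY EE sl)

/-- the data -/
structure Dat where
  n : ℕ
  /-- the denominators -/
  χ : Fin n → PrimChar
  /-- the numerators -/
  ψ : Fin (n + 1) → PrimChar
  /-- the distinguished denominator -/
  j₀ : Fin n
  /-- a small parameter -/
  δ : ℝ
  /-- the number of scales -/
  K : ℕ
  /-- the cutoff -/
  φ : ℝ → ℝ

/-- conjugation if `a` is true -/
noncomputable def cj (a : Bool) (z : ℂ) : ℂ := if a then (starRingEnd ℂ) z else z

/-- the shift of the normalizers: `2` on the right line, `0` on the left line -/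
def lam (a : Bool) : ℝ := if a then 0 else 2

/-- the coefficients `φ(log n / (θ L))` or `μ(n) φ(log n / (θ L))`, on the integers prime to `q` -/
noncomputable def cb (b : Bool) (φ : ℝ → ℝ) (q : ℕ) (θ L : ℝ) (n : ℕ) : ℝ :=
  if b then cm φ q θ 0 L n else cs φ q θ 0 L n

/-- the primes up to `T^(1/2)` -/
noncomputable def Pm (T : ℝ) : Finset ℕ := (Finset.Icc 1 ⌊T ^ (1 / 2 : ℝ)⌋₊).filter Nat.Prime

namespace Dat

variable (D : Dat)

/-- the conditions on the data -/
structure Ok : Prop where
  ne : ∀ i, D.ψ i ≠ D.χ D.j₀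
  δ0 : 0 < D.δ
  δ1 : D.δ * (1000 * (D.n + 1)) ≤ 1
  K1 : 80 * (2 * (D.n : ℝ) + 1) ≤ 2 ^ D.K
  cut : Cut D.δ D.φ

/-- the indices of the factors -/
abbrev I : Type := Fin D.n ⊕ Fin (D.n + 1)

/-- the character of a factor -/
def ch : D.I → PrimChar := Sum.elim D.χ D.ψ

/-- is the factor in the denominator? -/
def dn : D.I → Bool := Sum.elim (fun _ => true) (fun _ => false)

/-- the distinguished character -/
def ξ : PrimChar := D.χ D.j₀

/-- the lengths -/
noncomputable def θ (k : ℕ) : ℝ := (1 - 2 * D.δ) / 2 ^ (k + 1)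

/-- the long polynomial of length `T^(θ k)`: mollifier of a denominator, approximation of a
numerator -/
noncomputable def Lg (i : D.I) (k : ℕ) (T : ℝ) (s : ℂ) : ℂ :=
  Bf (D.ch i) (cb (D.dn i) D.φ (D.ch i).q (D.θ k) (Real.log T)) ⌊T ^ D.θ k⌋₊ s

/-- the short polynomial (normalizer) of length `T^(1/R)`: approximation of a denominator,
mollifier of a numerator -/
noncomputable def Sh (i : D.I) (R T : ℝ) (s : ℂ) : ℂ :=
  Bf (D.ch i) (cb (!D.dn i) D.φ (D.ch i).q (1 / R) (Real.log T)) ⌊T ^ (1 / R)⌋₊ s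

/-- the difference of two consecutive long polynomials; the last one is a base polynomial -/
noncomputable def dl (i : D.I) (k : ℕ) (T : ℝ) (s : ℂ) : ℂ :=
  if k + 1 = D.K then D.Lg i k T s else D.Lg i k T s - D.Lg i (k + 1) T s

/-- the remainder of a denominator -/
noncomputable def ν (i : D.I) (T : ℝ) (s : ℂ) : ℂ := (D.ch i).L s * D.Lg i 0 T s - 1

/-- the remainder of a numerator (without the normalizer) -/
noncomputable def rm (i : D.I) (T : ℝ) (s : ℂ) : ℂ := (D.ch i).L s - D.Lg i 0 T s

/-- the factor of a piece besides the normalizer, as a function of `s` (`e = 2` excluded) -/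
noncomputable def gp (i : D.I) (k : Fin D.K) (e : Fin 3) (T : ℝ) (s : ℂ) : ℂ :=
  if D.dn i then
    (if e = 0 then D.dl i k T s else if e = 1 then -(D.ν i T s * D.dl i k T s) else 0)
  else
    (if e = 0 then D.dl i k T s else if e = 1 ∧ (k : ℕ) + 1 = D.K then D.rm i T s else 0)

/-- the pieces on the line `1/2 + x/log T`; `a = false` on the right, `a = true` on the left -/
noncomputable def pc (a : Bool) (i : D.I) (c : Fin D.K × Fin 3) (R T x t : ℝ) : ℂ :=
  D.Sh i R T (pt T (x + lam a * R) t) *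
    if D.dn i ∧ c.2 = 2 then
      cj a (D.ν i T (pt T x t)) ^ 2 / (1 + cj a (D.ν i T (pt T x t))) *
        cj a (D.dl i c.1 T (pt T x t))
    else cj a (D.gp i c.1 c.2 T (pt T x t))

/-- the exact factor on the line `1/2 + x/log T` -/
noncomputable def ex (a : Bool) (i : D.I) (R T x t : ℝ) : ℂ :=
  D.Sh i R T (pt T (x + lam a * R) t) *
    if D.dn i then cj a (D.Lg i 0 T (pt T x t)) / (1 + cj a (D.ν i T (pt T x t)))
    else cj a ((D.ch i).L (pt T x t))

/-- a combination of pieces -/
abbrev Cb : Type := D.I → Fin D.K × Fin 3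

/-- the length of a piece, without base polynomials -/
noncomputable def wt (c : Fin D.K × Fin 3) : ℝ :=
  (c.2 : ℕ) + if (c.1 : ℕ) + 1 = D.K then 0 else 1 / 2 ^ ((c.1 : ℕ) + 1)

/-- the length of a combination, without base polynomials -/
noncomputable def Wt (c : D.Cb) : ℝ := ∑ i, D.wt (c i)

open scoped Classical in
/-- the included combinations -/
noncomputable def Inc : Finset D.Cb := Finset.univ.filter fun c => D.Wt c < 11 / 8

/-- the weight of the primes of the test polynomial -/
noncomputable def η (x : ℝ) : ℝ :=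
  D.φ (x / (1 / 2 - D.δ)) - D.φ (x / ((1 - D.δ) * (1 / 2 - D.δ)))

/-- the coefficients of the test polynomial -/
noncomputable def ρ (T : ℝ) (p : ℕ) : ℂ :=
  (starRingEnd ℂ) (co D.ξ p) *
    ((Real.log p / Real.log T * D.η (Real.log p / Real.log T) : ℝ) : ℂ)

/-- the test polynomial -/
noncomputable def S (T : ℝ) (s : ℂ) : ℂ := ∑ p ∈ Pm T, D.ρ T p * (p : ℂ) ^ (s - 1)

/-- the main term of the right side -/
noncomputable def c₀ (T : ℝ) : ℂ :=
  ∑ p ∈ Pm T, D.ρ T p * (∑ i, co (D.ψ i) p - ∑ j, co (D.χ j) p) / p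

/-- the approximation, without the test polynomial and without the factor of the functional
equation -/
noncomputable def Ht (a : Bool) (R T t : ℝ) : ℂ := ∑ c ∈ D.Inc, ∏ i, D.pc a i (c i) R T R t

/-- the exact function, without the test polynomial and without the factor of the functional
equation -/
noncomputable def He (a : Bool) (R T t : ℝ) : ℂ := ∏ i, D.ex a i R T R t

/-- the factor of the functional equation -/
noncomputable def X (yχ : Fin D.n → ℂ → ℂ) (yψ : Fin (D.n + 1) → ℂ → ℂ) (s : ℂ) : ℂ :=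
  (∏ j, yχ j s) / ∏ i, yψ i s

/-- the inverse factors of the functional equations -/
def IsYs (yχ : Fin D.n → ℂ → ℂ) (yψ : Fin (D.n + 1) → ℂ → ℂ) : Prop :=
  (∀ j, IsY (D.χ j) (yχ j)) ∧ ∀ i, IsY (D.ψ i) (yψ i)

end Dat

end Pool.Agent.H47.VT
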